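import Mathlib
import Pool.Agent.D0H45.PG.Stm

/-!
# Project PG (helper45), module GRID: a sparse set which meets all poor intervals
-/

set_option autoImplicit false

namespace Pool.Agent.D0H5.PG

open Finset Pool.Agent.Q240.KS Pool.Agent.D0H45.PG

/-- consecutive intervals -/
lemma sum_Ioc (f : ℕ → ℕ) (hf : Monotone f) (M : ℕ) :
    ∑ i ∈ range M, ((Ioc (f i) (f (i + 1))).filter Nat.Prime).card = ((Ioc (f 0) (f M)).filter Nat.Prime).card := by
  induction M with
  | zero => simp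
  | succ n ih =>
    rw [sum_range_succ, ih, ← card_union_of_disjoint]
    · rw [← filter_union, Ioc_union_Ioc_eq_Ioc (hf (Nat.zero_le n)) (hf (Nat.le_succ n))]
    · apply disjoint_filter_filter
      rw [disjoint_left]
      intro a ha hb
      rw [mem_Ioc] at ha hb
      omega

/-- the primes in consecutive intervals of the same length inside a longer one -/
lemma sum_pic (x H h : ℝ) (k M : ℕ) (hh : 0 ≤ h) (h1 : x ≤ k * h) (h2 : (k + M : ℝ) * h ≤ x + H) :
    ∑ i ∈ range M, pic ((k + i : ℝ) * h) h ≤ pic x H := by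
  have hm : Monotone (fun i : ℕ => ⌊((k + i : ℝ)) * h⌋₊) := by
    intro i j hij
    apply Nat.floor_le_floor
    have : (i : ℝ) ≤ j := by exact_mod_cast hij
    nlinarith
  have hs := sum_Ioc _ hm M
  have he : ∀ i ∈ range M, pic ((k + i : ℝ) * h) h =
      ((Ioc (⌊((k + i : ℝ)) * h⌋₊) (⌊((k + (i + 1 : ℕ) : ℝ)) * h⌋₊)).filter Nat.Prime).card := by
    intro i _
    unfold pic
    have : ((k + i : ℝ)) * h + h = ((k + (i + 1 : ℕ) : ℝ)) * h := by push_cast; ring
    rw [this]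
  rw [sum_congr rfl he]
  refine le_trans (le_of_eq hs) ?_
  unfold pic
  apply card_le_card
  apply filter_subset_filter
  apply Ioc_subset_Ioc
  · apply Nat.floor_le_floor
    simpa using h1
  · apply Nat.floor_le_floor
    exact h2

/-- the poor points of one grid -/
def Sj (lam η c₁ Y₀ : ℝ) (j : ℕ) : Set ℝ := {t | max Y₀ 1 ≤ (j : ℝ) / 4 ∧ (∃ k : ℕ, t = k * Real.exp ((1 - lam - 2 * η) * (j / 4))) ∧
  1 ≤ t ∧ |Real.log t - j / 4| ≤ 2 / 5 ∧
  (pic t (Real.exp ((1 - lam - 2 * η) * (j / 4))) : ℝ) < c₁ * Real.exp ((1 - lam - 2 * η) * (j / 4)) / (j / 4)}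

lemma Sj_finite (lam η c₁ Y₀ : ℝ) (j : ℕ) : (Sj lam η c₁ Y₀ j).Finite := by
  set h := Real.exp ((1 - lam - 2 * η) * (j / 4)) with hh
  have hpos : 0 < h := Real.exp_pos _
  apply Set.Finite.subset ((Finset.range (⌊Real.exp ((j : ℝ) / 4 + 2 / 5) / h⌋₊ + 1)).image (fun k : ℕ => (k : ℝ) * h)).finite_toSet
  rintro t ⟨_, ⟨k, hk⟩, h1, h2, _⟩
  rw [Finset.mem_coe, Finset.mem_image]
  refine ⟨k, ?_, hk.symm⟩
  rw [Finset.mem_range, Nat.lt_succ_iff]
  apply Nat.le_floor
  rw [le_div_iff₀ hpos]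
  rw [← hk]
  have := (abs_le.mp h2).2
  calc t = Real.exp (Real.log t) := (Real.exp_log (by linarith)).symm
    _ ≤ _ := Real.exp_le_exp.mpr (by linarith)

lemma Sj_card (lam e0 η η₁ c₁ Y₀ : ℝ) (hl : 1 / 10 ≤ lam) (hη : 0 < η) (hη1 : 2 * η ≤ η₁)
    (H : ∀ Y : ℝ, Y₀ ≤ Y → ∀ h : ℝ,
      Real.exp ((1 - lam - η₁) * Y) ≤ h → h ≤ Real.exp (0.9 * Y) → ∀ U : Finset ℝ,
      (∀ y ∈ U, 0 < y ∧ |Real.log y - Y| ≤ 2 / 5 ∧ (pic y h : ℝ) < c₁ * h / Y) →
      (∀ y ∈ U, ∀ y' ∈ U, y ≠ y' → h ≤ |y - y'|) → (U.card : ℝ) ≤ Real.exp ((e0 - η₁) * Y)) (j : ℕ) :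
    ((Sj lam η c₁ Y₀ j).ncard : ℝ) ≤ Real.exp ((e0 - 2 * η) * (j / 4)) := by
  by_cases hj : max Y₀ 1 ≤ (j : ℝ) / 4
  · have hj0 : (0 : ℝ) ≤ j / 4 := by positivity
    have hf := Sj_finite lam η c₁ Y₀ j
    rw [Set.ncard_eq_toFinset_card _ hf]
    refine le_trans (H (j / 4) (le_trans (le_max_left _ _) hj) (Real.exp ((1 - lam - 2 * η) * (j / 4))) ?_ ?_ hf.toFinset ?_ ?_) ?_
    · apply Real.exp_le_exp.mpr
      apply mul_le_mul_of_nonneg_right _ hj0
      linarith
    · apply Real.exp_le_exp.mpr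
      apply mul_le_mul_of_nonneg_right _ hj0
      norm_num
      linarith
    · intro y hy
      rw [Set.Finite.mem_toFinset] at hy
      obtain ⟨_, _, h1, h2, h3⟩ := hy
      exact ⟨by linarith, h2, h3⟩
    · intro y hy y' hy' hne
      rw [Set.Finite.mem_toFinset] at hy hy'
      obtain ⟨_, ⟨k, hk⟩, _⟩ := hy
      obtain ⟨_, ⟨k', hk'⟩, _⟩ := hy'
      have hkk : (k : ℤ) - k' ≠ 0 := by
        intro h0
        apply hne
        have : k = k' := by omega
        rw [hk, hk', this]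
      have h1 : (1 : ℝ) ≤ |(k : ℝ) - k'| := by
        have := Int.one_le_abs hkk
        exact_mod_cast this
      rw [hk, hk', ← sub_mul, abs_mul, abs_of_pos (Real.exp_pos _)]
      nlinarith [Real.exp_pos ((1 - lam - 2 * η) * ((j : ℝ) / 4))]
    · apply Real.exp_le_exp.mpr
      apply mul_le_mul_of_nonneg_right _ hj0
      linarith
  · have : Sj lam η c₁ Y₀ j = ∅ := by
      rw [Set.eq_empty_iff_forall_notMem]
      intro t ht
      exact hj ht.1
    rw [this]
    simp
    positivity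

theorem t_GRID : S_GRID := by
  intro lam e0 hl hl1 he0 hM
  obtain ⟨c₁, η₁, Y₀, hc₁, hη₁, H⟩ := hM
  set η := min (η₁ / 2) (min ((1 - lam) / 4) (e0 / 4)) with hη
  have hη0 : 0 < η := by
    rw [hη]; exact lt_min (by linarith) (lt_min (by linarith) (by linarith))
  have hη1 : 2 * η ≤ η₁ := by
    have : η ≤ η₁ / 2 := min_le_left _ _
    linarith
  have hη2 : 4 * η ≤ 1 - lam := by
    have : η ≤ (1 - lam) / 4 := le_trans (min_le_right _ _) (min_le_left _ _)
    linarith
  have hη3 : 4 * η ≤ e0 := by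
    have : η ≤ e0 / 4 := le_trans (min_le_right _ _) (min_le_right _ _)
    linarith
  clear_value η
  -- the large parameter
  obtain ⟨x₀, hx₀⟩ : ∃ x₀ : ℝ, ∀ x : ℝ, x₀ ≤ x → 3 ≤ x ∧ 8 ≤ x ^ η ∧ x ^ (-(1 / 10) : ℝ) ≤ 3 / 20 ∧
      max Y₀ 1 + 1 / 4 ≤ Real.log x := by
    have e1 : ∀ᶠ x : ℝ in Filter.atTop, 3 ≤ x := Filter.eventually_ge_atTop 3
    have e2 : ∀ᶠ x : ℝ in Filter.atTop, 8 ≤ x ^ η := (tendsto_rpow_atTop hη0).eventually_ge_atTop 8
    have e3 : ∀ᶠ x : ℝ in Filter.atTop, x ^ (-(1 / 10) : ℝ) ≤ 3 / 20 := by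
      have := tendsto_rpow_neg_atTop (y := (1 / 10 : ℝ)) (by norm_num)
      exact (this.eventually (ge_mem_nhds (by norm_num : (0 : ℝ) < 3 / 20)))
    have e4 : ∀ᶠ x : ℝ in Filter.atTop, max Y₀ 1 + 1 / 4 ≤ Real.log x := Real.tendsto_log_atTop.eventually_ge_atTop _
    have := e1.and (e2.and (e3.and e4))
    rw [Filter.eventually_atTop] at this
    exact this
  refine ⟨c₁ / 4, η, max x₀ 3, ⋃ j, Sj lam η c₁ Y₀ j, ?_⟩
  refine ⟨by positivity, hη0, by linarith, by linarith, le_max_right _ _, ?_, ?_, ?_⟩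
  · intro t ht
    rw [Set.mem_iUnion] at ht
    obtain ⟨j, hj⟩ := ht
    exact hj.2.2.1
  · refine ⟨(4 / η + 3) * Real.exp (e0 - 2 * η), ?_⟩
    intro X hX
    have hlog : 0 ≤ Real.log X := Real.log_nonneg hX
    set J := ⌊4 * Real.log X + 8 / 5⌋₊ + 1 with hJ
    have hsub : {t | t ∈ ⋃ j, Sj lam η c₁ Y₀ j ∧ t ≤ X} ⊆ ⋃ j ∈ Finset.range J, Sj lam η c₁ Y₀ j := by
      rintro t ⟨ht, htX⟩
      rw [Set.mem_iUnion] at ht
      obtain ⟨j, hj⟩ := ht
      rw [Set.mem_iUnion₂]
      refine ⟨j, ?_, hj⟩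
      rw [Finset.mem_range, hJ, Nat.lt_succ_iff]
      apply Nat.le_floor
      have h2 := (abs_le.mp hj.2.2.2.1).1
      have h3 : Real.log t ≤ Real.log X := Real.log_le_log (by linarith [hj.2.2.1]) htX
      linarith
    have hfin : (⋃ j ∈ Finset.range J, Sj lam η c₁ Y₀ j).Finite := by
      apply Set.Finite.biUnion (Finset.finite_toSet _)
      intro j _
      exact Sj_finite _ _ _ _ _
    refine ⟨hfin.subset hsub, ?_⟩
    have hcard : ((⋃ j ∈ Finset.range J, Sj lam η c₁ Y₀ j).ncard : ℝ) ≤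
        ∑ j ∈ Finset.range J, ((Sj lam η c₁ Y₀ j).ncard : ℝ) := by
      have := Finset.set_ncard_biUnion_le (Finset.range J) (Sj lam η c₁ Y₀)
      exact_mod_cast this
    have hle : ({t | t ∈ ⋃ j, Sj lam η c₁ Y₀ j ∧ t ≤ X}.ncard : ℝ) ≤ ((⋃ j ∈ Finset.range J, Sj lam η c₁ Y₀ j).ncard : ℝ) := by
      exact_mod_cast Set.ncard_le_ncard hsub hfin
    have hJle : (J : ℝ) ≤ 4 * Real.log X + 3 := by
      rw [hJ]
      push_cast
      have := Nat.floor_le (by positivity : 0 ≤ 4 * Real.log X + 8 / 5)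
      linarith
    have hsum : ∑ j ∈ Finset.range J, ((Sj lam η c₁ Y₀ j).ncard : ℝ) ≤ J * Real.exp ((e0 - 2 * η) * (Real.log X + 1)) := by
      have : ∀ j ∈ Finset.range J, ((Sj lam η c₁ Y₀ j).ncard : ℝ) ≤ Real.exp ((e0 - 2 * η) * (Real.log X + 1)) := by
        intro j hj
        refine le_trans (Sj_card lam e0 η η₁ c₁ Y₀ hl hη0 hη1 H j) ?_
        apply Real.exp_le_exp.mpr
        apply mul_le_mul_of_nonneg_left _ (by linarith)
        rw [Finset.mem_range, hJ, Nat.lt_succ_iff] at hj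
        have := (Nat.le_floor_iff (by positivity)).mp hj
        linarith
      have h2 := Finset.sum_le_card_nsmul _ _ _ this
      rw [Finset.card_range, nsmul_eq_mul] at h2
      exact h2
    have hX0 : 0 < X := by linarith
    have hexp : Real.exp ((e0 - 2 * η) * (Real.log X + 1)) = Real.exp (e0 - 2 * η) * X ^ (e0 - 2 * η) := by
      rw [Real.rpow_def_of_pos hX0, ← Real.exp_add]
      congr 1
      ring
    have hlogle : Real.log X ≤ X ^ η / η := Real.log_le_rpow_div hX0.le hη0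
    have hXη : 1 ≤ X ^ η := Real.one_le_rpow hX hη0.le
    have hsplit : X ^ (e0 - η) = X ^ η * X ^ (e0 - 2 * η) := by
      rw [← Real.rpow_add hX0]
      congr 1
      ring
    have hJ2 : (J : ℝ) ≤ (4 / η + 3) * X ^ η := by
      have : (4 / η + 3) * X ^ η = 4 * (X ^ η / η) + 3 * X ^ η := by ring
      rw [this]
      linarith
    calc ({t | t ∈ ⋃ j, Sj lam η c₁ Y₀ j ∧ t ≤ X}.ncard : ℝ) ≤ J * Real.exp ((e0 - 2 * η) * (Real.log X + 1)) :=
          le_trans hle (le_trans hcard hsum)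
      _ = J * (Real.exp (e0 - 2 * η) * X ^ (e0 - 2 * η)) := by rw [hexp]
      _ ≤ ((4 / η + 3) * X ^ η) * (Real.exp (e0 - 2 * η) * X ^ (e0 - 2 * η)) := by
          apply mul_le_mul_of_nonneg_right hJ2
          positivity
      _ = _ := by rw [hsplit]; ring
  · intro x hx hpoor
    obtain ⟨hx3, hx8, hxs, hxl⟩ := hx₀ x (le_trans (le_max_left _ _) hx)
    have hx0 : 0 < x := by linarith
    set ℓ := Real.log x with hℓ
    have hℓ1 : 1 + 1 / 4 ≤ ℓ := le_trans (by linarith [le_max_right Y₀ 1]) hxl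
    set θ := 1 - lam - η with hθ
    set Hx := x ^ θ with hHx
    have hHexp : Hx = Real.exp (θ * ℓ) := by
      rw [hHx, Real.rpow_def_of_pos hx0, mul_comm]
    have hHpos : 0 < Hx := by rw [hHexp]; exact Real.exp_pos _
    set j := ⌊4 * ℓ⌋₊ with hj
    have hj1 : (j : ℝ) / 4 ≤ ℓ := by
      have := Nat.floor_le (by positivity : 0 ≤ 4 * ℓ)
      rw [← hj] at this
      linarith
    have hj2 : ℓ < (j : ℝ) / 4 + 1 / 4 := by
      have := Nat.lt_floor_add_one (4 * ℓ)
      rw [← hj] at this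
      linarith
    set h := Real.exp ((1 - lam - 2 * η) * ((j : ℝ) / 4)) with hh
    have hhpos : 0 < h := Real.exp_pos _
    have hratio : 8 * h ≤ Hx := by
      have h1 : x ^ η * h ≤ Hx := by
        rw [hHexp, hh, Real.rpow_def_of_pos hx0, ← Real.exp_add, ← hℓ]
        apply Real.exp_le_exp.mpr
        have : (1 - lam - 2 * η) * ((j : ℝ) / 4) ≤ (1 - lam - 2 * η) * ℓ :=
          mul_le_mul_of_nonneg_left hj1 (by linarith)
        rw [hθ]
        nlinarith
      nlinarith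
    have hYpos : 1 ≤ (j : ℝ) / 4 := by
      have := le_max_right Y₀ 1
      linarith
    set k := ⌈x / h⌉₊ with hk
    have hk1 : x ≤ k * h := by
      have := Nat.le_ceil (x / h)
      rw [← hk, div_le_iff₀ hhpos] at this
      exact this
    have hk2 : (k : ℝ) * h ≤ x + h := by
      have := (Nat.ceil_lt_add_one (by positivity : 0 ≤ x / h)).le
      rw [← hk] at this
      have h3 := mul_le_mul_of_nonneg_right this hhpos.le
      rw [add_mul, div_mul_cancel₀ _ hhpos.ne'] at h3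
      linarith
    set M := ⌊Hx / h⌋₊ - 1 with hMd
    have hfl : 1 ≤ ⌊Hx / h⌋₊ := by
      apply Nat.le_floor
      rw [le_div_iff₀ hhpos]
      push_cast
      linarith
    have hMcast : (M : ℝ) = (⌊Hx / h⌋₊ : ℝ) - 1 := by
      rw [hMd, Nat.cast_sub hfl]
      simp
    have hM1 : (M : ℝ) * h ≤ Hx - h := by
      have := Nat.floor_le (by positivity : 0 ≤ Hx / h)
      have h3 := mul_le_mul_of_nonneg_right this hhpos.le
      rw [div_mul_cancel₀ _ hhpos.ne'] at h3
      rw [hMcast, sub_mul]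
      linarith
    have hM2 : Hx - 2 * h ≤ (M : ℝ) * h := by
      have := (Nat.lt_floor_add_one (Hx / h)).le
      have h3 := mul_le_mul_of_nonneg_right this hhpos.le
      rw [div_mul_cancel₀ _ hhpos.ne', add_mul] at h3
      rw [hMcast, sub_mul]
      linarith
    have hend : (k + M : ℝ) * h ≤ x + Hx := by
      rw [add_mul]
      linarith
    have hsum := sum_pic x Hx h k M hhpos.le hk1 hend
    by_contra hcon
    push Not at hcon
    have hall : ∀ i ∈ range M, c₁ * h / ((j : ℝ) / 4) ≤ (pic ((k + i : ℝ) * h) h : ℝ) := by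
      intro i hi
      by_contra hlt
      push Not at hlt
      have hiM : (i : ℝ) + 1 ≤ M := by
        have := Finset.mem_range.mp hi
        exact_mod_cast this
      have ht1 : x ≤ (k + i : ℝ) * h := by
        have : (0 : ℝ) ≤ i * h := by positivity
        nlinarith
      have ht2 : (k + i : ℝ) * h ≤ x + Hx := by nlinarith
      have htpos : 0 < (k + i : ℝ) * h := by linarith
      have hmem : (k + i : ℝ) * h ∈ ⋃ j, Sj lam η c₁ Y₀ j := by
        rw [Set.mem_iUnion]
        refine ⟨j, by linarith, ⟨k + i, by push_cast; ring⟩, by linarith, ?_, hlt⟩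
        rw [abs_le]
        have hlg1 : ℓ ≤ Real.log ((k + i : ℝ) * h) := Real.log_le_log hx0 ht1
        have hlg2 : Real.log ((k + i : ℝ) * h) ≤ ℓ + Hx / x := by
          have h1 : Real.log ((k + i : ℝ) * h) ≤ Real.log (x + Hx) := Real.log_le_log htpos ht2
          have h2 : x + Hx = x * (1 + Hx / x) := by field_simp
          have h3 : Real.log (x + Hx) = ℓ + Real.log (1 + Hx / x) := by
            rw [h2, Real.log_mul hx0.ne' (by positivity)]
          have h4 : Real.log (1 + Hx / x) ≤ Hx / x := by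
            have := Real.log_le_sub_one_of_pos (by positivity : 0 < 1 + Hx / x)
            linarith
          linarith
        have hHx : Hx / x ≤ 3 / 20 := by
          refine le_trans ?_ hxs
          have h1 : Hx / x = x ^ (θ - 1) := by
            rw [Real.rpow_sub hx0, Real.rpow_one]
          rw [h1]
          apply Real.rpow_le_rpow_of_exponent_le (by linarith)
          rw [hθ]
          linarith
        constructor <;> linarith
      have := hcon _ hmem ht1
      linarith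
    have h5 := Finset.card_nsmul_le_sum _ _ _ hall
    rw [Finset.card_range, nsmul_eq_mul] at h5
    have h6 : ∑ i ∈ range M, (pic ((k + i : ℝ) * h) h : ℝ) ≤ (pic x Hx : ℝ) := by exact_mod_cast hsum
    have h7 : (M : ℝ) * (c₁ * h / ((j : ℝ) / 4)) = c₁ * (M * h) / ((j : ℝ) / 4) := by ring
    have h8 : c₁ * (M * h) / ℓ ≤ c₁ * (M * h) / ((j : ℝ) / 4) := by
      apply div_le_div_of_nonneg_left (by positivity) (by linarith) hj1
    have h9 : c₁ / 4 * Hx / ℓ ≤ c₁ * (M * h) / ℓ := by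
      apply div_le_div_of_nonneg_right _ (by linarith)
      have : Hx / 4 ≤ M * h := by linarith
      nlinarith
    linarith

end Pool.Agent.D0H5.PG
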